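import Mathlib

/-!
Thinning (MP_562b47_mp): Russo formula and Gronwall, abstract form.
`B` = set of flagged centres, `A ⊆ B` = set of active centres, each flagged centre is active
with probability `p`.  `c A B` = expectation of the functional on `{flags = B}` with `A` active.
-/

set_option autoImplicit false
set_option linter.unusedSectionVars false
set_option linter.unusedVariables false

open Finset

namespace TH

variable {W : Type*} [Fintype W] [DecidableEq W]

/-- probability that exactly the subset `A` of `B` is active -/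
def wgt (p : ℝ) (A B : Finset W) : ℝ := p ^ A.card * (1 - p) ^ (B \ A).card

/-- the thinned expectation -/
def Dp (c : Finset W → Finset W → ℝ) (p : ℝ) : ℝ :=
  ∑ B : Finset W, ∑ A ∈ B.powerset, wgt p A B * c A B

/-- the thinned expectation of a sum over active centres -/
def Sp (s : W → Finset W → Finset W → ℝ) (p : ℝ) : ℝ :=
  ∑ B : Finset W, ∑ A ∈ B.powerset, wgt p A B * ∑ w ∈ A, s w A B

theorem wgt_nonneg {p : ℝ} (h0 : 0 ≤ p) (h1 : p ≤ 1) (A B : Finset W) : 0 ≤ wgt p A B :=
  mul_nonneg (pow_nonneg h0 _) (pow_nonneg (by linarith) _)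

theorem sum_swap (B : Finset W) (g : Finset W → W → ℝ) :
    ∑ A ∈ B.powerset, ∑ w ∈ B \ A, g A w = ∑ A ∈ B.powerset, ∑ w ∈ A, g (A.erase w) w := by
  rw [sum_sigma', sum_sigma']
  refine sum_bij' (fun x _ => (⟨insert x.2 x.1, x.2⟩ : Sigma fun _ : Finset W => W))
    (fun x _ => (⟨x.1.erase x.2, x.2⟩ : Sigma fun _ : Finset W => W)) ?_ ?_ ?_ ?_ ?_
  · rintro ⟨A, w⟩ hx
    simp only [mem_sigma, mem_powerset, mem_sdiff] at hx ⊢
    exact ⟨insert_subset hx.2.1 hx.1, mem_insert_self _ _⟩
  · rintro ⟨A, w⟩ hx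
    simp only [mem_sigma, mem_powerset, mem_sdiff] at hx ⊢
    exact ⟨(erase_subset _ _).trans hx.1, hx.1 hx.2, notMem_erase _ _⟩
  · rintro ⟨A, w⟩ hx
    simp only [mem_sigma, mem_powerset, mem_sdiff] at hx
    simp [erase_insert hx.2.2]
  · rintro ⟨A, w⟩ hx
    simp only [mem_sigma, mem_powerset] at hx
    simp [insert_erase hx.2]
  · rintro ⟨A, w⟩ hx
    simp only [mem_sigma, mem_powerset, mem_sdiff] at hx
    simp [erase_insert hx.2.2]

/-- the derivative of the weight -/
noncomputable def dwgt (p : ℝ) (A B : Finset W) : ℝ :=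
  (A.card : ℝ) * p ^ (A.card - 1) * (1 - p) ^ (B \ A).card
    - p ^ A.card * (((B \ A).card : ℝ) * (1 - p) ^ ((B \ A).card - 1))

theorem hasDerivAt_wgt (p : ℝ) (A B : Finset W) :
    HasDerivAt (fun q => wgt q A B) (dwgt p A B) p := by
  unfold wgt dwgt
  have h1 : HasDerivAt (fun q : ℝ => q ^ A.card) ((A.card : ℝ) * p ^ (A.card - 1)) p := by
    simpa using hasDerivAt_pow A.card p
  have h2 : HasDerivAt (fun q : ℝ => (1 - q) ^ (B \ A).card)
      (((B \ A).card : ℝ) * (1 - p) ^ ((B \ A).card - 1) * (-1)) p := by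
    have h3 : HasDerivAt (fun q : ℝ => 1 - q) (-1) p := by
      simpa using (hasDerivAt_id p).const_sub 1
    exact h3.fun_pow (B \ A).card
  have h4 := h1.mul h2
  refine h4.congr_deriv ?_
  ring

theorem mul_dwgt (p : ℝ) (A B : Finset W) :
    p * dwgt p A B = (A.card : ℝ) * wgt p A B
      - ((B \ A).card : ℝ) * (p ^ (A.card + 1) * (1 - p) ^ ((B \ A).card - 1)) := by
  unfold dwgt wgt
  rcases Nat.eq_zero_or_pos A.card with h | h
  · rw [h]; simp; ring
  · obtain ⟨k, hk⟩ : ∃ k, A.card = k + 1 := ⟨A.card - 1, by omega⟩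
    rw [hk]
    simp only [Nat.add_sub_cancel]
    ring

theorem wgt_insert {p : ℝ} {A B : Finset W} {w : W} (hA : A ⊆ B) (hw : w ∈ A) :
    wgt p A B = p ^ ((A.erase w).card + 1) * (1 - p) ^ ((B \ A.erase w).card - 1) := by
  unfold wgt
  have h1 : (A.erase w).card + 1 = A.card := card_erase_add_one hw
  have h2 : B \ A.erase w = insert w (B \ A) := by
    ext x
    simp only [mem_sdiff, mem_erase, mem_insert]
    constructor
    · rintro ⟨hx, hn⟩
      by_cases hxw : x = w
      · exact Or.inl hxw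
      · exact Or.inr ⟨hx, fun h => hn ⟨hxw, h⟩⟩
    · rintro (rfl | ⟨hx, hn⟩)
      · exact ⟨hA hw, fun h => h.1 rfl⟩
      · exact ⟨hx, fun h => hn h.2⟩
  have h3 : w ∉ B \ A := by simp [hw]
  rw [h1, h2, card_insert_of_notMem h3, Nat.add_sub_cancel]

/-- Russo's formula -/
theorem russo (c : Finset W → Finset W → ℝ) (p : ℝ) :
    ∃ D' : ℝ, HasDerivAt (Dp c) D' p ∧
      p * D' = Sp (fun w A B => c A B - c (A.erase w) B) p := by
  refine ⟨∑ B : Finset W, ∑ A ∈ B.powerset, dwgt p A B * c A B, ?_, ?_⟩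
  · unfold Dp
    apply HasDerivAt.fun_sum
    intro B _
    apply HasDerivAt.fun_sum
    intro A _
    exact (hasDerivAt_wgt p A B).mul_const _
  · unfold Sp
    rw [mul_sum]
    refine sum_congr rfl fun B _ => ?_
    rw [mul_sum]
    have h1 : ∀ A ∈ B.powerset, p * (dwgt p A B * c A B) =
        wgt p A B * ∑ _w ∈ A, c A B
          - ∑ _w ∈ B \ A, (p ^ (A.card + 1) * (1 - p) ^ ((B \ A).card - 1)) * c A B := by
      intro A _
      rw [← mul_assoc, mul_dwgt, sum_const, sum_const, nsmul_eq_mul, nsmul_eq_mul]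
      ring
    rw [sum_congr rfl h1, sum_sub_distrib,
      sum_swap B (fun A _ => (p ^ (A.card + 1) * (1 - p) ^ ((B \ A).card - 1)) * c A B),
      ← sum_sub_distrib]
    refine sum_congr rfl fun A hA => ?_
    rw [sum_sub_distrib, mul_sub]
    congr 1
    rw [mul_sum]
    refine sum_congr rfl fun w hw => ?_
    rw [wgt_insert (mem_powerset.mp hA) hw]

theorem Sp_mono {s s' : W → Finset W → Finset W → ℝ} {p : ℝ} (h0 : 0 ≤ p) (h1 : p ≤ 1)
    (h : ∀ w A B, w ∈ A → A ⊆ B → s w A B ≤ s' w A B) : Sp s p ≤ Sp s' p := by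
  unfold Sp
  refine sum_le_sum fun B _ => sum_le_sum fun A hA => ?_
  exact mul_le_mul_of_nonneg_left
    (sum_le_sum fun w hw => h w A B hw (mem_powerset.mp hA)) (wgt_nonneg h0 h1 A B)

theorem Sp_neg (s : W → Finset W → Finset W → ℝ) (p : ℝ) :
    Sp (fun w A B => -s w A B) p = -Sp s p := by
  unfold Sp
  simp [sum_neg_distrib]

theorem Dp_continuous (c : Finset W → Finset W → ℝ) : Continuous (Dp c) := by
  unfold Dp wgt
  fun_prop

/-- one trade costs at most `s`: then `-p D'(p) ≤ S(p)` -/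
theorem deriv_ge (c : Finset W → Finset W → ℝ) (s : W → Finset W → Finset W → ℝ)
    (h : ∀ w A B, w ∈ A → A ⊆ B → c (A.erase w) B - c A B ≤ s w A B) {p : ℝ} (h0 : 0 ≤ p)
    (h1 : p ≤ 1) : ∃ D' : ℝ, HasDerivAt (Dp c) D' p ∧ -Sp s p ≤ p * D' := by
  obtain ⟨D', hD, hp⟩ := russo c p
  refine ⟨D', hD, ?_⟩
  rw [hp, ← Sp_neg]
  apply Sp_mono h0 h1
  intro w A B hw hA
  have := h w A B hw hA
  linarith

/-- thinning: total elimination of one class -/
theorem thin (c : Finset W → Finset W → ℝ) (s : W → Finset W → Finset W → ℝ) (e L p0 : ℝ)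
    (hc : ∀ p, 0 ≤ p → p ≤ 1 → 0 ≤ Dp c p)
    (h : ∀ w A B, w ∈ A → A ⊆ B → c (A.erase w) B - c A B ≤ s w A B)
    (he : 0 ≤ e) (hL : 0 ≤ L) (hp0 : 0 < p0) (hp1 : p0 ≤ 1)
    (h1 : ∀ p, 0 < p → p ≤ 1 → Sp s p ≤ e * (Dp c p + 1))
    (h2 : ∀ p, 0 < p → p ≤ 1 → Sp s p ≤ p * L * (Dp c p + 1)) :
    Dp c 0 + 1 ≤ (Dp c 1 + 1) * Real.exp (e * Real.log (1 / p0) + L * p0) := by
  -- part 1 : on `[p0, 1]`, `y p ^ e` is nondecreasing
  have key1 : (Dp c p0 + 1) * p0 ^ e ≤ (Dp c 1 + 1) * (1 : ℝ) ^ e := by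
    have hmono : MonotoneOn (fun p : ℝ => (Dp c p + 1) * p ^ e) (Set.Icc p0 1) := by
      apply monotoneOn_of_deriv_nonneg (convex_Icc _ _)
      · apply ContinuousOn.mul
        · exact ((Dp_continuous c).add continuous_const).continuousOn
        · apply ContinuousOn.rpow_const continuousOn_id
          intro x hx; left; exact (lt_of_lt_of_le hp0 hx.1).ne'
      · intro x hx
        rw [interior_Icc] at hx
        obtain ⟨D', hD, -⟩ := russo c x
        apply DifferentiableAt.differentiableWithinAt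
        exact ((hD.differentiableAt).add_const _).mul
          ((Real.differentiableAt_rpow_const_of_ne e (lt_trans hp0 hx.1).ne'))
      · intro x hx
        rw [interior_Icc] at hx
        have hx0 : 0 < x := lt_trans hp0 hx.1
        obtain ⟨D', hD, hp⟩ := deriv_ge c s h hx0.le hx.2.le
        have hd : HasDerivAt (fun p : ℝ => (Dp c p + 1) * p ^ e)
            (D' * x ^ e + (Dp c x + 1) * (e * x ^ (e - 1))) x :=
          (hD.add_const (1 : ℝ)).mul (Real.hasDerivAt_rpow_const (Or.inl hx0.ne'))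
        rw [hd.deriv]
        have hxe : x ^ e = x * x ^ (e - 1) := by
          rw [Real.rpow_sub_one hx0.ne']; field_simp
        rw [hxe]
        have : D' * (x * x ^ (e - 1)) + (Dp c x + 1) * (e * x ^ (e - 1))
            = x ^ (e - 1) * (x * D' + e * (Dp c x + 1)) := by ring
        rw [this]
        apply mul_nonneg (Real.rpow_nonneg hx0.le _)
        have := h1 x hx0 hx.2.le
        linarith
    exact hmono ⟨le_refl _, hp1⟩ ⟨hp1, le_refl _⟩ hp1
  -- part 2 : on `[0, p0]`
  have key2 : (Dp c 0 + 1) * Real.exp (L * 0) ≤ (Dp c p0 + 1) * Real.exp (L * p0) := by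
    have hmono : MonotoneOn (fun p : ℝ => (Dp c p + 1) * Real.exp (L * p)) (Set.Icc 0 p0) := by
      apply monotoneOn_of_deriv_nonneg (convex_Icc _ _)
      · exact (((Dp_continuous c).add continuous_const).mul (by fun_prop)).continuousOn
      · intro x _
        obtain ⟨D', hD, -⟩ := russo c x
        apply DifferentiableAt.differentiableWithinAt
        exact ((hD.differentiableAt).add_const _).mul (by fun_prop)
      · intro x hx
        rw [interior_Icc] at hx
        have hx0 : 0 < x := hx.1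
        have hx1 : x ≤ 1 := hx.2.le.trans hp1
        obtain ⟨D', hD, hp⟩ := deriv_ge c s h hx0.le hx1
        have hd : HasDerivAt (fun p : ℝ => (Dp c p + 1) * Real.exp (L * p))
            (D' * Real.exp (L * x) + (Dp c x + 1) * (Real.exp (L * x) * L)) x := by
          apply (hD.add_const (1 : ℝ)).mul
          have : HasDerivAt (fun p : ℝ => L * p) L x := by
            simpa using (hasDerivAt_id x).const_mul L
          exact this.exp
        rw [hd.deriv]
        have : D' * Real.exp (L * x) + (Dp c x + 1) * (Real.exp (L * x) * L)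
            = Real.exp (L * x) * (D' + L * (Dp c x + 1)) := by ring
        rw [this]
        apply mul_nonneg (Real.exp_pos _).le
        have h3 := h2 x hx0 hx1
        have h4 : 0 ≤ x * (D' + L * (Dp c x + 1)) := by
          have : x * (D' + L * (Dp c x + 1)) = x * D' + x * L * (Dp c x + 1) := by ring
          rw [this]; linarith
        exact nonneg_of_mul_nonneg_right (by linarith [h4]) hx0
    exact hmono ⟨le_refl _, hp0.le⟩ ⟨hp0.le, le_refl _⟩ hp0.le
  rw [mul_zero, Real.exp_zero, mul_one] at key2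
  rw [Real.one_rpow, mul_one] at key1
  have hpe : 0 < p0 ^ e := Real.rpow_pos_of_pos hp0 e
  have h5 : Dp c p0 + 1 ≤ (Dp c 1 + 1) * Real.exp (e * Real.log (1 / p0)) := by
    have : Real.exp (e * Real.log (1 / p0)) = (p0 ^ e)⁻¹ := by
      rw [Real.rpow_def_of_pos hp0, ← Real.exp_neg]
      congr 1
      rw [one_div, Real.log_inv]; ring
    rw [this, ← div_eq_mul_inv, le_div_iff₀ hpe]
    exact key1
  calc Dp c 0 + 1 ≤ (Dp c p0 + 1) * Real.exp (L * p0) := key2
    _ ≤ (Dp c 1 + 1) * Real.exp (e * Real.log (1 / p0)) * Real.exp (L * p0) :=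
        mul_le_mul_of_nonneg_right h5 (Real.exp_pos _).le
    _ = _ := by rw [mul_assoc, ← Real.exp_add]

end TH
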