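import Mathlib

/-!
Lowering the background and the recursion over the classes (MP_562b47_mp), abstract form.
-/

set_option autoImplicit false

open Finset MeasureTheory

namespace TH

/-- Gronwall, differential form (`a` decreases from `a0` to `a1`) -/
theorem lower_deriv (D : ℝ → ℝ) (a1 a0 Lam : ℝ) (h : a1 ≤ a0)
    (hc : ContinuousOn D (Set.Icc a1 a0))
    (hd : ∀ a ∈ Set.Ioo a1 a0, ∃ D' : ℝ, HasDerivAt D D' a ∧ -D' ≤ Lam * (D a + 1)) :
    D a1 + 1 ≤ (D a0 + 1) * Real.exp (Lam * (a0 - a1)) := by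
  have hmono : MonotoneOn (fun a : ℝ => (D a + 1) * Real.exp (Lam * a)) (Set.Icc a1 a0) := by
    apply monotoneOn_of_deriv_nonneg (convex_Icc _ _)
    · exact (hc.add continuousOn_const).mul (by fun_prop)
    · intro x hx
      rw [interior_Icc] at hx
      obtain ⟨D', hD, -⟩ := hd x hx
      apply DifferentiableAt.differentiableWithinAt
      exact ((hD.differentiableAt).add_const _).mul (by fun_prop)
    · intro x hx
      rw [interior_Icc] at hx
      obtain ⟨D', hD, hp⟩ := hd x hx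
      have hd' : HasDerivAt (fun p : ℝ => (D p + 1) * Real.exp (Lam * p))
          (D' * Real.exp (Lam * x) + (D x + 1) * (Real.exp (Lam * x) * Lam)) x := by
        apply (hD.add_const (1 : ℝ)).mul
        have : HasDerivAt (fun p : ℝ => Lam * p) Lam x := by
          simpa using (hasDerivAt_id x).const_mul Lam
        exact this.exp
      rw [hd'.deriv]
      have : D' * Real.exp (Lam * x) + (D x + 1) * (Real.exp (Lam * x) * Lam)
          = Real.exp (Lam * x) * (D' + Lam * (D x + 1)) := by ring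
      rw [this]
      exact mul_nonneg (Real.exp_pos _).le (by linarith)
  have h1 := hmono ⟨le_refl _, h⟩ ⟨h, le_refl _⟩ h
  simp only at h1
  have h2 : Real.exp (Lam * (a0 - a1)) = Real.exp (Lam * a0) / Real.exp (Lam * a1) := by
    rw [← Real.exp_sub]; congr 1; ring
  rw [h2, ← mul_div_assoc, le_div_iff₀ (Real.exp_pos _)]
  exact h1

/-- Gronwall, integral form -/
theorem lower_int (D : ℝ → ℝ) (a1 a0 Lam : ℝ) (h : a1 ≤ a0) (hLam : 0 ≤ Lam)
    (hc : ContinuousOn D (Set.Icc a1 a0))
    (hd : ∀ a ∈ Set.Icc a1 a0, D a - D a0 ≤ ∫ t in a..a0, Lam * (D t + 1)) :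
    D a1 + 1 ≤ (D a0 + 1) * Real.exp (Lam * (a0 - a1)) := by
  set Y : ℝ → ℝ := fun a => (∫ t in a..a0, Lam * (D t + 1)) + D a0 with hY
  have hc1 : ContinuousOn (fun t => Lam * (D t + 1)) (Set.Icc a1 a0) :=
    continuousOn_const.mul (hc.add continuousOn_const)
  have hint : ∀ a ∈ Set.Icc a1 a0, IntervalIntegrable (fun t => Lam * (D t + 1)) volume a a0 := by
    intro a ha
    apply ContinuousOn.intervalIntegrable
    rw [Set.uIcc_of_le ha.2]
    exact hc1.mono (Set.Icc_subset_Icc_left ha.1)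
  have hYc : ContinuousOn Y (Set.Icc a1 a0) := by
    have h2 : ContinuousOn (fun a => ∫ t in a0..a, Lam * (D t + 1)) (Set.uIcc a0 a1) := by
      apply intervalIntegral.continuousOn_primitive_interval
      rw [Set.uIcc_of_ge h]
      exact hc1.integrableOn_Icc
    rw [Set.uIcc_of_ge h] at h2
    have h3 : ContinuousOn (fun a => -(∫ t in a0..a, Lam * (D t + 1)) + D a0)
        (Set.Icc a1 a0) := h2.neg.add continuousOn_const
    refine h3.congr fun a _ => ?_
    simp only [hY]
    rw [intervalIntegral.integral_symm]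
  have key := lower_deriv Y a1 a0 Lam h hYc ?_
  · have h1 : Y a0 = D a0 := by simp [hY]
    have h2 : D a1 ≤ Y a1 := by
      have := hd a1 ⟨le_refl _, h⟩
      simp only [hY]; linarith
    rw [h1] at key
    linarith
  · intro a ha
    refine ⟨-(Lam * (D a + 1)), ?_, ?_⟩
    · have h4 : HasDerivAt (fun u => ∫ t in u..a0, Lam * (D t + 1)) (-(Lam * (D a + 1))) a := by
        apply intervalIntegral.integral_hasDerivAt_left
        · exact hint a ⟨ha.1.le, ha.2.le⟩
        · refine ⟨Set.Icc a1 a0, Icc_mem_nhds ha.1 ha.2, ?_⟩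
          exact (hc1.aestronglyMeasurable measurableSet_Icc)
        · exact hc1.continuousAt (Icc_mem_nhds ha.1 ha.2)
      exact h4.add_const _
    · rw [neg_neg]
      apply mul_le_mul_of_nonneg_left _ hLam
      have := hd a ⟨ha.1.le, ha.2.le⟩
      simp only [hY]; linarith

/-- the recursion over the classes -/
theorem seq_bound (D x : ℕ → ℝ) (ms : ℕ) (hD : 0 ≤ D ms + 1) (hx : ∀ m, 0 ≤ x m)
    (hs : Summable x)
    (h : ∀ m, ms ≤ m → D (m + 1) + 1 ≤ (D m + 1) * Real.exp (x m)) :
    ∀ M, ms ≤ M → D M + 1 ≤ (D ms + 1) * Real.exp (∑' m, x m) := by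
  have h1 : ∀ M, ms ≤ M → D M + 1 ≤ (D ms + 1) * Real.exp (∑ m ∈ Finset.Ico ms M, x m) := by
    intro M hM
    induction M, hM using Nat.le_induction with
    | base => simp
    | succ M hM ih =>
      rw [Finset.sum_Ico_succ_top hM, Real.exp_add, ← mul_assoc]
      exact (h M hM).trans (mul_le_mul_of_nonneg_right ih (Real.exp_pos _).le)
  intro M hM
  refine (h1 M hM).trans (mul_le_mul_of_nonneg_left ?_ hD)
  exact Real.exp_le_exp.mpr (hs.sum_le_tsum _ fun m _ => hx m)

/-- two-step recursion: `S m` (classes `m..`, background `η_m`), `S' m` (class `m` eliminated) -/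
theorem seq_bound2 (D D' x y : ℕ → ℝ) (ms : ℕ) (hD : 0 ≤ D ms + 1) (hx : ∀ m, 0 ≤ x m)
    (hy : ∀ m, 0 ≤ y m) (hsx : Summable x) (hsy : Summable y)
    (h1 : ∀ m, ms ≤ m → D' m + 1 ≤ (D m + 1) * Real.exp (x m))
    (h2 : ∀ m, ms ≤ m → D (m + 1) + 1 ≤ (D' m + 1) * Real.exp (y m)) :
    ∀ M, ms ≤ M → D M + 1 ≤ (D ms + 1) * Real.exp (∑' m, (x m + y m)) := by
  apply seq_bound D (fun m => x m + y m) ms hD (fun m => add_nonneg (hx m) (hy m)) (hsx.add hsy)
  intro m hm
  rw [Real.exp_add, ← mul_assoc]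
  exact (h2 m hm).trans (mul_le_mul_of_nonneg_right (h1 m hm) (Real.exp_pos _).le)

end TH
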